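import Pool.Graph.R_pool_sql_team_seeded_620a6dc7.H906.EhrW.Meas

/-!
# One-sided Ehrhart theorem: the family of polynomials

The library's polynomials with prescribed leading exponents and high order of vanishing, for an
arbitrary order `O` of the exponents (the library has the lexicographic order).
-/

set_option autoImplicit false

open MvPolynomial
open scoped Pointwise

namespace Pool.Agent.H63.EH

open Pool.Agent.H912R3.Ehr Pool.Agent.H906.EhrW

variable {d : ℕ} {F : Type} [Field F] {Γ : Type} [AddCommMonoid Γ] [LinearOrder Γ]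
  [IsOrderedCancelAddMonoid Γ]

/-- `l` is the leading exponent of `s` for the order given by `O`. -/
def Top (O : (Fin d →₀ ℕ) →+ Γ) (l : Fin d →₀ ℕ) (s : MvPolynomial (Fin d) F) : Prop :=
  coeff l s ≠ 0 ∧ ∀ m ∈ s.support, O m ≤ O l

variable {O : (Fin d →₀ ℕ) →+ Γ}

omit [IsOrderedCancelAddMonoid Γ] in
theorem Top.ne_zero {l : Fin d →₀ ℕ} {s : MvPolynomial (Fin d) F} (h : Top O l s) : s ≠ 0 := by
  rintro rfl
  exact h.1 (coeff_zero _)

theorem Top.mul (hO : Function.Injective O) {l l' : Fin d →₀ ℕ} {s s' : MvPolynomial (Fin d) F}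
    (h : Top O l s) (h' : Top O l' s') : Top O (l + l') (s * s') := by
  classical
  refine ⟨?_, ?_⟩
  · rw [coeff_mul, Finset.sum_eq_single (l, l')]
    · exact mul_ne_zero h.1 h'.1
    · rintro ⟨x, y⟩ hxy hne
      rw [Finset.HasAntidiagonal.mem_antidiagonal] at hxy
      by_contra hcon
      have h1 := h.2 x (mem_support_iff.2 (left_ne_zero_of_mul hcon))
      have h2 := h'.2 y (mem_support_iff.2 (right_ne_zero_of_mul hcon))
      have h3 : O x + O y = O l + O l' := by
        rw [← map_add, ← map_add]; exact congrArg O hxy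
      have h4 : O x = O l := by
        refine le_antisymm h1 ?_
        by_contra h5
        have h6 := add_lt_add_of_lt_of_le (not_le.mp h5) h2
        rw [h3] at h6
        exact lt_irrefl _ h6
      have h5 : O y = O l' := by
        rw [h4] at h3
        exact add_left_cancel h3
      exact hne (Prod.ext (hO h4) (hO h5))
    · intro h0
      exfalso
      apply h0
      rw [Finset.HasAntidiagonal.mem_antidiagonal]
  · intro m hm
    obtain ⟨x, hx, y, hy, rfl⟩ := Finset.mem_add.1 (support_mul s s' hm)
    rw [map_add, map_add]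
    exact add_le_add (h.2 x hx) (h'.2 y hy)

omit [IsOrderedCancelAddMonoid Γ] in
theorem Top.one : Top O 0 (1 : MvPolynomial (Fin d) F) := by
  classical
  refine ⟨by simp, fun m hm => ?_⟩
  have h1 : m = 0 := by
    rw [mem_support_iff, coeff_one] at hm
    by_contra h
    exact hm (if_neg fun h' => h h'.symm)
  rw [h1]

theorem Top.pow (hO : Function.Injective O) {l : Fin d →₀ ℕ} {s : MvPolynomial (Fin d) F}
    (h : Top O l s) (a : ℕ) : Top O (a • l) (s ^ a) := by
  induction a with
  | zero => rw [zero_smul, pow_zero]; exact Top.one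
  | succ a ih => rw [pow_succ, succ_nsmul]; exact ih.mul hO h

theorem Top.prod (hO : Function.Injective O) {ι : Type*} (T : Finset ι) (l : ι → Fin d →₀ ℕ)
    (s : ι → MvPolynomial (Fin d) F) (h : ∀ i ∈ T, Top O (l i) (s i)) :
    Top O (∑ i ∈ T, l i) (∏ i ∈ T, s i) := by
  classical
  induction T using Finset.induction_on with
  | empty => simpa using Top.one
  | insert i T hi ih =>
    rw [Finset.sum_insert hi, Finset.prod_insert hi]
    exact (h i (Finset.mem_insert_self _ _)).mul hO
      (ih fun k hk => h k (Finset.mem_insert_of_mem hk))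

/-- The polynomials with exponents in `A`, leading exponent `l` and vanishing order at least `j`. -/
def GoodO (F : Type) [Field F] (O : (Fin d →₀ ℕ) →+ Γ) (A : Finset (Fin d →₀ ℕ)) (j : ℕ)
    (l : Fin d →₀ ℕ) (s : MvPolynomial (Fin d) F) : Prop :=
  s.support ⊆ A ∧ Top O l s ∧ Van j s

omit [IsOrderedCancelAddMonoid Γ] in
theorem count (O : (Fin d →₀ ℕ) →+ Γ) (A : Finset (Fin d →₀ ℕ)) (j : ℕ) (D : Finset (Fin d →₀ ℕ))
    (hD : ∀ l ∈ A, (∃ s, GoodO F O A j l s) → l ∈ D) : A.card ≤ D.card + (low d j).card := by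
  classical
  by_contra hcon
  push Not at hcon
  let P : (A → F) →ₗ[F] MvPolynomial (Fin d) F :=
    Fintype.linearCombination F (fun l : A => (monomial (l : Fin d →₀ ℕ) (1 : F)))
  have hP : ∀ v : A → F, P v = ∑ l : A, monomial (l : Fin d →₀ ℕ) (v l) := by
    intro v
    rw [Fintype.linearCombination_apply]
    refine Finset.sum_congr rfl fun l _ => ?_
    rw [smul_monomial, smul_eq_mul, mul_one]
  have hPc : ∀ (v : A → F) (l : A), coeff (l : Fin d →₀ ℕ) (P v) = v l := by
    intro v l
    rw [hP, coeff_sum, Finset.sum_eq_single l]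
    · rw [coeff_monomial, if_pos rfl]
    · intro l' _ hl'
      rw [coeff_monomial, if_neg]
      exact fun h => hl' (Subtype.ext h)
    · intro h; exact absurd (Finset.mem_univ _) h
  have hPs : ∀ (v : A → F), (P v).support ⊆ A := by
    intro v m hm
    by_contra hmA
    rw [mem_support_iff] at hm
    apply hm
    rw [hP, coeff_sum]
    refine Finset.sum_eq_zero fun l _ => ?_
    rw [coeff_monomial, if_neg]
    intro h
    exact hmA (h ▸ l.2)
  let L : (A → F) →ₗ[F] ((D → F) × (low d j → F)) :=
    LinearMap.prod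
      (LinearMap.pi fun m : D => (lcoeff F (m : Fin d →₀ ℕ)).comp P)
      (LinearMap.pi fun m : low d j => (lcoeff F (m : Fin d →₀ ℕ)).comp (tau.toLinearMap.comp P))
  have hrank : Module.finrank F ((D → F) × (low d j → F)) < Module.finrank F (A → F) := by
    rw [Module.finrank_prod, Module.finrank_fintype_fun_eq_card,
      Module.finrank_fintype_fun_eq_card, Module.finrank_fintype_fun_eq_card,
      Fintype.card_coe, Fintype.card_coe, Fintype.card_coe]
    exact hcon
  have hker := LinearMap.ker_ne_bot_of_finrank_lt (f := L) hrank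
  obtain ⟨v, hv, hv0⟩ := (Submodule.ne_bot_iff _).1 hker
  rw [LinearMap.mem_ker] at hv
  have h1 : ∀ m ∈ D, coeff m (P v) = 0 := by
    intro m hm
    have := congrFun (congrArg Prod.fst hv) ⟨m, hm⟩
    exact this
  have h2 : Van j (P v) := by
    intro m hm
    have := congrFun (congrArg Prod.snd hv) ⟨m, mem_low.2 hm⟩
    exact this
  have hne : P v ≠ 0 := by
    intro h
    apply hv0
    funext l
    rw [← hPc v l, h, coeff_zero]
    rfl
  obtain ⟨l, hl, hmax⟩ := (P v).support.exists_max_image O (support_nonempty.2 hne)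
  have hDm := hD _ (hPs v hl) ⟨P v, hPs v, ⟨mem_support_iff.1 hl, hmax⟩, h2⟩
  exact (mem_support_iff.1 hl) (h1 _ hDm)

omit [IsOrderedCancelAddMonoid Γ] in
/-- polynomials with prescribed leading exponents and large total order of vanishing -/
theorem exists_family (O : (Fin d →₀ ℕ) →+ Γ) (hd : 1 ≤ d) (A : Finset (Fin d →₀ ℕ)) (J : ℕ) :
    ∃ (s : (Fin d →₀ ℕ) → MvPolynomial (Fin d) F) (jj : (Fin d →₀ ℕ) → ℕ),
      (∀ l ∈ A, GoodO F O A (jj l) l (s l)) ∧ (∀ l, jj l ≤ J) ∧
      J * A.card ≤ ∑ l ∈ A, jj l + (J + d).choose (d + 1) := by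
  classical
  let P : ℕ → (Fin d →₀ ℕ) → Prop := fun j l => ∃ s, GoodO F O A j l s
  have hP0 : ∀ l ∈ A, P 0 l := by
    intro l hl
    have hs : ∀ m ∈ (monomial l (1 : F)).support, m = l := by
      intro m hm
      have := support_monomial_subset hm
      rwa [Finset.mem_singleton] at this
    refine ⟨monomial l 1, fun m hm => ?_, ⟨?_, fun m hm => ?_⟩,
      fun _ hm => absurd hm (Nat.not_lt_zero _)⟩
    · rw [hs m hm]; exact hl
    · rw [coeff_monomial, if_pos rfl]; exact one_ne_zero
    · rw [hs m hm]
  let jj : (Fin d →₀ ℕ) → ℕ := fun l => Nat.findGreatest (fun j => P j l) J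
  have hjj : ∀ l ∈ A, P (jj l) l := fun l hl =>
    Nat.findGreatest_spec (P := fun j => P j l) (Nat.zero_le J) (hP0 l hl)
  choose! s hs using hjj
  refine ⟨s, jj, hs, fun l => Nat.findGreatest_le J, ?_⟩
  -- counting
  have hcount : ∀ j ∈ Finset.range J, A.card ≤ (A.filter fun l => P (j + 1) l).card +
      (j + d).choose d := by
    intro j _
    have h1 := count (F := F) O A (j + 1) (A.filter fun l => P (j + 1) l)
      (fun l hl h => Finset.mem_filter.2 ⟨hl, h⟩)
    exact h1.trans (Nat.add_le_add_left (card_low hd j) _)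
  have h2 : ∀ l ∈ A, ((Finset.range J).filter fun j => P (j + 1) l).card ≤ jj l := by
    intro l _
    have : ((Finset.range J).filter fun j => P (j + 1) l) ⊆ Finset.range (jj l) := by
      intro j hj
      rw [Finset.mem_filter, Finset.mem_range] at hj
      rw [Finset.mem_range]
      exact Nat.le_findGreatest (by omega) hj.2
    exact (Finset.card_le_card this).trans (by rw [Finset.card_range])
  calc J * A.card = ∑ _j ∈ Finset.range J, A.card := by
        rw [Finset.sum_const, Finset.card_range, smul_eq_mul]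
    _ ≤ ∑ j ∈ Finset.range J, ((A.filter fun l => P (j + 1) l).card + (j + d).choose d) :=
        Finset.sum_le_sum hcount
    _ = ∑ j ∈ Finset.range J, (A.filter fun l => P (j + 1) l).card +
          ∑ j ∈ Finset.range J, (j + d).choose d := Finset.sum_add_distrib
    _ ≤ _ := by
        refine Nat.add_le_add ?_ ?_
        · calc ∑ j ∈ Finset.range J, (A.filter fun l => P (j + 1) l).card
              = ∑ j ∈ Finset.range J, ∑ l ∈ A, (if P (j + 1) l then 1 else 0) := by
                refine Finset.sum_congr rfl fun j _ => ?_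
                rw [Finset.card_filter]
            _ = ∑ l ∈ A, ∑ j ∈ Finset.range J, (if P (j + 1) l then 1 else 0) :=
                Finset.sum_comm
            _ = ∑ l ∈ A, ((Finset.range J).filter fun j => P (j + 1) l).card := by
                refine Finset.sum_congr rfl fun l _ => ?_
                rw [Finset.card_filter]
            _ ≤ ∑ l ∈ A, jj l := Finset.sum_le_sum h2
        · rcases Nat.eq_zero_or_pos J with rfl | hJ
          · simp
          · obtain ⟨J', rfl⟩ := Nat.exists_eq_succ_of_ne_zero hJ.ne'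
            rw [Nat.succ_eq_add_one, Nat.sum_range_add_choose]
            apply le_of_eq
            congr 1
            omega

/-- The order of the exponents by the values of the linear functional `ℓ`, and lexicographic for
equal values. -/
noncomputable def ordKey (ℓ : (Fin d → ℝ) →ₗ[ℝ] ℝ) :
    (Fin d →₀ ℕ) →+ ℝ ×ₗ Lex (Fin d →₀ ℕ) where
  toFun m := toLex (ℓ (toR m), toLex m)
  map_zero' := by
    have h : toR (0 : Fin d →₀ ℕ) = 0 := by funext i; simp [toR]
    rw [h, map_zero]; rfl
  map_add' m m' := by
    rw [toR_add, map_add]; rfl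

theorem ordKey_injective (ℓ : (Fin d → ℝ) →ₗ[ℝ] ℝ) : Function.Injective (ordKey ℓ) := by
  intro m m' h
  have h1 : (ℓ (toR m), toLex m) = (ℓ (toR m'), toLex m') := toLex.injective h
  exact toLex.injective (congrArg Prod.snd h1)

theorem le_of_ordKey_le {ℓ : (Fin d → ℝ) →ₗ[ℝ] ℝ} {m m' : Fin d →₀ ℕ}
    (h : ordKey ℓ m ≤ ordKey ℓ m') : ℓ (toR m) ≤ ℓ (toR m') := by
  have h1 : toLex (ℓ (toR m), toLex m) ≤ toLex (ℓ (toR m'), toLex m') := h
  rw [Prod.Lex.toLex_le_toLex] at h1
  rcases h1 with h1 | ⟨h1, -⟩
  · exact h1.le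
  · exact h1.le

end Pool.Agent.H63.EH
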