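import Pool.Agent.H63.EH.Lattice

/-!
# One-sided Ehrhart theorem: separation of the lattice points from the origin
-/

set_option autoImplicit false

open MeasureTheory Set
open scoped Matrix

namespace Pool.Agent.H63.EH

open Pool.Agent.H906.EhrM

variable {d : ℕ}

/-- A bounded set contains finitely many points of a lattice. -/
theorem finite_points {A : Matrix (Fin d) (Fin d) ℝ} (hA : A.det ≠ 0) {K : Set (Fin d → ℝ)}
    (hK : Bornology.IsBounded K) :
    {x : Fin d → ℝ | x ∈ K ∧ ∃ z : Fin d → ℤ, x = A *ᵥ fun i => (z i : ℝ)}.Finite := by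
  have hu : IsUnit A.det := isUnit_iff_ne_zero.2 hA
  obtain ⟨R, hR⟩ := hK.exists_norm_le
  have hc : Continuous fun x : Fin d → ℝ => A⁻¹ *ᵥ x :=
    (Matrix.mulVecLin A⁻¹).continuous_of_finiteDimensional
  obtain ⟨C, hC⟩ := ((isCompact_closedBall (0 : Fin d → ℝ) R).image hc).isBounded.exists_norm_le
  obtain ⟨B, hB⟩ := exists_nat_ge C
  refine ((Set.finite_Icc (fun _ : Fin d => -(B : ℤ)) fun _ => (B : ℤ)).image
    fun z : Fin d → ℤ => A *ᵥ fun i => (z i : ℝ)).subset ?_
  rintro x ⟨hx, z, rfl⟩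
  refine ⟨z, ?_, rfl⟩
  have h1 : ‖A⁻¹ *ᵥ (A *ᵥ fun i => (z i : ℝ))‖ ≤ C :=
    hC _ ⟨_, mem_closedBall_zero_iff.2 (hR _ hx), rfl⟩
  rw [Matrix.mulVec_mulVec, Matrix.nonsing_inv_mul _ hu, Matrix.one_mulVec] at h1
  have h2 : ∀ i, |(z i : ℝ)| ≤ B := fun i => ((norm_le_pi_norm _ i).trans h1).trans hB
  rw [mem_Icc]
  refine ⟨fun i => ?_, fun i => ?_⟩
  · have := (abs_le.1 (h2 i)).1
    exact_mod_cast this
  · have := (abs_le.1 (h2 i)).2
    exact_mod_cast this

/-- If `0` is not in the convex hull of a finite set, there is a linear functional which is positive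
on the set. -/
theorem exists_pos {S : Set (Fin d → ℝ)} (hS : S.Finite) (h0 : (0 : Fin d → ℝ) ∉ convexHull ℝ S) :
    ∃ ℓ : (Fin d → ℝ) →ₗ[ℝ] ℝ, ∀ x ∈ S, 0 < ℓ x := by
  obtain ⟨f, u, h1, h2⟩ := geometric_hahn_banach_point_closed (convex_convexHull ℝ S)
    (hS.isClosed_convexHull ℝ) h0
  refine ⟨f.toLinearMap, fun x hx => ?_⟩
  have h3 := h2 x (subset_convexHull ℝ S hx)
  rw [map_zero] at h1
  exact h1.trans h3

theorem bounded_msum {ι : Type} [Fintype ι] {K : ι → Set (Fin d → ℝ)}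
    (hK : ∀ i, IsCompact (K i)) : Bornology.IsBounded (msum K) := by
  have h : ∀ i, ∃ R : ℝ, ∀ x ∈ K i, ‖x‖ ≤ R := fun i => (hK i).isBounded.exists_norm_le
  choose R hR using h
  refine isBounded_iff_forall_norm_le.2 ⟨∑ i, R i, ?_⟩
  rintro x ⟨y, hy, rfl⟩
  exact (norm_sum_le _ _).trans (Finset.sum_le_sum fun i _ => hR i _ (hy i))

/-- **Several bodies.** -/
theorem several (hd : 1 ≤ d) {A : Matrix (Fin d) (Fin d) ℝ} (hA : A.det ≠ 0)
    {m : ℕ} {K : Fin m → Set (Fin d → ℝ)} {f : Fin m → (Fin d → ℝ) → ℝ}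
    (hK : ∀ i, IsCompact (K i)) (hKc : ∀ i, Convex ℝ (K i))
    (hf : ∀ i, IntegrableOn (f i) (K i)) (hf01 : ∀ i, ∀ x ∈ K i, 0 ≤ f i x ∧ f i x ≤ 1)
    (hpos : ∀ i, 0 < ∫ x in K i, f i x)
    (hcen : ∀ i, ∫ x in K i, f i x • x = 0)
    (h0 : (0 : Fin d → ℝ) ∉ convexHull ℝ
      ((interior (msum K) ∩ {x | ∃ z : Fin d → ℤ, x = A *ᵥ fun i => (z i : ℝ)}) \ {0})) :
    ∑ i, (∫ x in K i, f i x) ^ ((d : ℝ)⁻¹) ≤
      ((d : ℝ) + 1) * (|A.det| / d.factorial) ^ ((d : ℝ)⁻¹) := by
  rcases Nat.eq_zero_or_pos m with hm | hm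
  · subst hm
    rw [Finset.univ_eq_empty, Finset.sum_empty]
    positivity
  have hne : Nonempty (Fin m) := ⟨⟨0, hm⟩⟩
  have hfin : ((interior (msum K) ∩ {x | ∃ z : Fin d → ℤ, x = A *ᵥ fun i => (z i : ℝ)}) \
      {0}).Finite :=
    (finite_points hA (bounded_msum hK)).subset fun x hx => ⟨interior_subset hx.1.1, hx.1.2⟩
  obtain ⟨ℓ, hℓ⟩ := exists_pos hfin h0
  have hdet : LinearMap.det (Matrix.toLin' A) ≠ 0 := by
    rw [LinearMap.det_toLin']; exact hA
  set T : (Fin d → ℝ) ≃L[ℝ] (Fin d → ℝ) :=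
    (LinearMap.equivOfDetNeZero (Matrix.toLin' A) hdet).toContinuousLinearEquiv with hT
  have hTa : ∀ x, T x = A.mulVec x := fun x => rfl
  have hTd : LinearMap.det (T : (Fin d → ℝ) →ₗ[ℝ] (Fin d → ℝ)) = A.det := by
    rw [← LinearMap.det_toLin' A]
    congr 1
  have h := lattice_bound hd T hK hKc (ℓ := ℓ) (fun z hz hz0 => by
      refine hℓ _ ⟨⟨hz, z, rfl⟩, fun h1 => hz0 ?_⟩
      have h2 : T (fun i => (z i : ℝ)) = 0 := h1
      rw [← map_zero T] at h2
      have h3 := T.injective h2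
      funext i
      have h4 := congrFun h3 i
      simpa using h4) hf hf01
    (fun i j => by
      have hint : Integrable (fun x : Fin d → ℝ => f i x • x) (volume.restrict (K i)) := by
        refine Integrable.of_eval fun l => ?_
        exact Pool.Agent.H906.EhrM.mul_coord_integrable (hK i) (hf i) l
      have := (ContinuousLinearMap.proj (R := ℝ) (φ := fun _ : Fin d => ℝ) j).integral_comp_comm hint
      rw [hcen i, map_zero] at this
      exact this) hpos
  rw [hTd] at h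
  exact h

/-- **One body.** -/
theorem one (hd : 1 ≤ d) {A : Matrix (Fin d) (Fin d) ℝ} (hA : A.det ≠ 0)
    {K : Set (Fin d → ℝ)} (hK : IsCompact K) (hKc : Convex ℝ K) (hne : (interior K).Nonempty)
    (hcen : (volume K).toReal⁻¹ • ∫ x in K, x = 0)
    (h0 : (0 : Fin d → ℝ) ∉ convexHull ℝ
      ((interior K ∩ {x | ∃ z : Fin d → ℤ, x = A *ᵥ fun i => (z i : ℝ)}) \ {0})) :
    (volume K).toReal ≤ ((d : ℝ) + 1) ^ d / d.factorial * |A.det| := by
  have hVpos : 0 < (volume K).toReal := by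
    have h1 : 0 < volume K := by
      have : 0 < volume (interior K) := isOpen_interior.measure_pos volume hne
      exact this.trans_le (measure_mono interior_subset)
    exact ENNReal.toReal_pos h1.ne' hK.measure_lt_top.ne
  have hI : (∫ x in K, x) = 0 := by
    rcases smul_eq_zero.1 hcen with h | h
    · exact absurd h (inv_ne_zero hVpos.ne')
    · exact h
  have hms : msum (fun _ : Fin 1 => K) = K := by
    ext x
    constructor
    · rintro ⟨y, hy, rfl⟩
      rw [Fin.sum_univ_one]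
      exact hy 0
    · intro hx
      exact ⟨fun _ => x, fun _ => hx, by rw [Fin.sum_univ_one]⟩
  have h := several hd hA (m := 1) (K := fun _ => K) (f := fun _ _ => 1) (fun _ => hK)
    (fun _ => hKc) (fun _ => continuousOn_const.integrableOn_compact hK)
    (fun _ _ _ => ⟨zero_le_one, le_rfl⟩)
    (fun _ => by
      rw [setIntegral_const, smul_eq_mul, mul_one]
      exact hVpos)
    (fun _ => by
      simp only [one_smul]
      exact hI)
    (by rw [hms]; exact h0)
  rw [Fin.sum_univ_one, setIntegral_const, smul_eq_mul, mul_one] at h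
  have hV : volume.real K = (volume K).toReal := rfl
  rw [hV] at h
  have hD : 0 ≤ |A.det| / (d.factorial : ℝ) := by positivity
  have h1 := pow_le_pow_left₀ (Real.rpow_nonneg hVpos.le _) h d
  rw [mul_pow, Real.rpow_inv_natCast_pow hVpos.le (by omega),
    Real.rpow_inv_natCast_pow hD (by omega)] at h1
  calc (volume K).toReal ≤ ((d : ℝ) + 1) ^ d * (|A.det| / d.factorial) := h1
    _ = _ := by ring

end Pool.Agent.H63.EH
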