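import Pool.Graph.R_pool_sql_team_seeded_620a6dc7.H906.EhrM.Meas
import Pool.Agent.H63.EH.Fam

/-!
# One-sided Ehrhart theorem for several bodies: the key inequality and the discrete inequality

After the library's `Pool.Agent.H906.EhrM.Key`; the exponents of the polynomials are now bounded by the
leading exponent, so only the lattice points on one side matter.
-/

set_option autoImplicit false

open scoped Pointwise
open Set MvPolynomial

namespace Pool.Agent.H63.EH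

open Pool.Agent.H912R3.Ehr Pool.Agent.H906.EhrW Pool.Agent.H906.EhrM

variable {d : ℕ} {ι : Type} [Fintype ι]

/-- **The key inequality** for several bodies. -/
theorem key {Γ : Type} [AddCommMonoid Γ] [LinearOrder Γ] [IsOrderedCancelAddMonoid Γ]
    {O : (Fin d →₀ ℕ) →+ Γ} (hO : Function.Injective O) {p : ℕ} [Fact p.Prime] (hd : 1 ≤ d) (A : ι → Finset (Fin d →₀ ℕ))
    (C : ι → Set (Fin d → ℝ)) (hC : ∀ i, Convex ℝ (C i)) (hC' : ∀ i, (C i).Nonempty)
    (hA : ∀ i, ∀ l ∈ A i, toR l ∈ C i)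
    (r : ι → (Fin d →₀ ℕ) → ℕ) (R : ℕ) (hr : ∀ i, ∀ l ∈ A i, r i l ≤ R)
    (e q : ℕ) (a J : ι → ℕ) (hq : q = p ^ e)
    (huniq : ∀ (m : Fin d →₀ ℕ) (y : ι → (Fin d → ℝ)), (∀ i, y i ∈ C i) →
      toR m = ∑ i, ((a i * ∑ l ∈ A i, r i l : ℕ) : ℝ) • y i →
      cls q m = cls q (∑ i, a i • ∑ l ∈ A i, r i l • l) →
      O m ≤ O (∑ i, a i • ∑ l ∈ A i, r i l • l) →
      m = ∑ i, a i • ∑ l ∈ A i, r i l • l) :
    ∑ i, a i * (J i * ∑ l ∈ A i, r i l) ≤
      ∑ i, a i * (R * (J i + d).choose (d + 1)) + d * (q - 1) := by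
  classical
  have hfam := fun i => exists_family (F := ZMod p) O hd (A i) (J i)
  choose s jj hs hjJ hJ0 using hfam
  have hJ := fun i => weighted (A i) (jj i) (r i) (J i) R _ (hjJ i) (hr i) (hJ0 i)
  set f : ι → MvPolynomial (Fin d) (ZMod p) := fun i => ∏ l ∈ A i, s i l ^ r i l with hf
  set g : MvPolynomial (Fin d) (ZMod p) := ∏ i, f i ^ a i with hg
  have hft : ∀ i, Top O (∑ l ∈ A i, r i l • l) (f i) := fun i =>
    Top.prod hO (A i) (fun l => r i l • l) (fun l => s i l ^ r i l) fun l hl =>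
      (hs i l hl).2.1.pow hO (r i l)
  have hgt : Top O (∑ i, a i • ∑ l ∈ A i, r i l • l) g :=
    Top.prod hO Finset.univ (fun i => a i • ∑ l ∈ A i, r i l • l) (fun i => f i ^ a i) fun i _ =>
      (hft i).pow hO (a i)
  have hgc : coeff (∑ i, a i • ∑ l ∈ A i, r i l • l) g ≠ 0 := hgt.1
  have hgV : Van (∑ i, a i * ∑ l ∈ A i, r i l * jj i l) g :=
    Van.prod Finset.univ (fun i => a i * ∑ l ∈ A i, r i l * jj i l) (fun i => f i ^ a i)
      fun i _ => (Van.prod (A i) (fun l => r i l * jj i l) (fun l => s i l ^ r i l)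
        fun l hl => (hs i l hl).2.2.pow (r i l)).pow (a i)
  have hsupp1 : ∀ i, ∀ l ∈ A i, Supp (C i) 1 (s i l) := by
    intro i l hl m hm
    rw [Nat.cast_one, one_smul]
    exact hA i m ((hs i l hl).1 hm)
  have hgS : ∀ i, Supp (C i) (a i * ∑ l ∈ A i, r i l) (f i ^ a i) := fun i =>
    (supp_prod_pow (hC i) (hC' i) (A i) (s i) (r i) (hsupp1 i)).pow (hC i) (hC' i) (a i)
  have hfold : fold q (cls q (∑ i, a i • ∑ l ∈ A i, r i l • l)) g =
      coeff (∑ i, a i • ∑ l ∈ A i, r i l • l) g := by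
    refine fold_apply q _ g _ rfl fun m hm hcl => ?_
    obtain ⟨y, hy, hym⟩ := support_prod C _ hC' (fun i => f i ^ a i) hgS Finset.univ m hm
    exact huniq m y hy hym hcl (hgt.2 m hm)
  have hnot : ¬ (d * (q - 1) + 1 ≤ ∑ i, a i * ∑ l ∈ A i, r i l * jj i l) := by
    intro hle
    apply hgc
    rw [← hfold]
    exact fold_eq_zero (p := p) e q hq _ g (hgV.mono hle)
  push Not at hnot
  calc ∑ i, a i * (J i * ∑ l ∈ A i, r i l)
      ≤ ∑ i, a i * (∑ l ∈ A i, r i l * jj i l + R * (J i + d).choose (d + 1)) :=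
        Finset.sum_le_sum fun i _ => Nat.mul_le_mul_left _ (hJ i)
    _ = ∑ i, a i * ∑ l ∈ A i, r i l * jj i l + ∑ i, a i * (R * (J i + d).choose (d + 1)) := by
        rw [← Finset.sum_add_distrib]
        exact Finset.sum_congr rfl fun i _ => by ring
    _ ≤ _ := by omega

/-- the discrete inequality for several bodies -/
theorem disc [Nonempty ι] (hd : 1 ≤ d) {K : ι → Set (Fin d → ℝ)} (hKc : ∀ i, Convex ℝ (K i))
    {ℓ : (Fin d → ℝ) →ₗ[ℝ] ℝ}
    (hL : ∀ z : Fin d → ℤ, (fun i => (z i : ℝ)) ∈ interior (msum K) → z ≠ 0 →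
      0 < ℓ fun i => (z i : ℝ))
    {k B : ℕ} (hk : 1 ≤ k) {ε δ : ℝ} (hε : 0 < ε)
    (hδ : 0 < δ) (hball : ∀ i, Metric.ball (0 : Fin d → ℝ) δ ⊆ K i)
    (A : ι → Finset (Fin d →₀ ℕ)) (hAK : ∀ i, ∀ m ∈ A i, pt k B m ∈ K i)
    (r : ι → (Fin d →₀ ℕ) → ℕ) (R : ℕ) (hr : ∀ i, ∀ l ∈ A i, r i l ≤ R)
    (hA0 : ∀ i, 0 < ∑ m ∈ A i, r i m)
    (hc : ∀ i, ‖((∑ m ∈ A i, r i m : ℕ) : ℝ)⁻¹ • ∑ m ∈ A i, (r i m : ℝ) • pt k B m‖ < ε * δ)
    (e q : ℕ) (a J : ι → ℕ) (hq : q = 2 ^ e)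
    (ha : ∀ i, (a i : ℝ) * ((∑ m ∈ A i, r i m : ℕ) * k) ≤ (1 - ε) * q) :
    ∑ i, a i * (J i * ∑ m ∈ A i, r i m) ≤
      ∑ i, a i * (R * (J i + d).choose (d + 1)) + d * (q - 1) := by
  have : Fact (Nat.Prime 2) := ⟨Nat.prime_two⟩
  set N : ι → ℕ := fun i => ∑ m ∈ A i, r i m with hN
  set c : ι → Fin d → ℝ := fun i => ((N i : ℝ)⁻¹) • ∑ m ∈ A i, (r i m : ℝ) • pt k B m with hcdef
  have hk' : (0 : ℝ) < k := by positivity
  have hN' : ∀ i, (0 : ℝ) < N i := fun i => by exact_mod_cast hA0 i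
  set C : ι → Set (Fin d → ℝ) := fun i => {y | (k : ℝ)⁻¹ • y - (fun _ => (B : ℝ)) ∈ K i} with hCdef
  have hCc : ∀ i, Convex ℝ (C i) := by
    intro i x hx y hy p r hp hr hpr
    show (k : ℝ)⁻¹ • (p • x + r • y) - (fun _ => (B : ℝ)) ∈ K i
    have h1 := hKc i hx hy hp hr hpr
    convert h1 using 1
    funext i
    simp only [Pi.sub_apply, Pi.smul_apply, Pi.add_apply, smul_eq_mul]
    have : (B : ℝ) = p * B + r * B := by rw [← add_mul, hpr, one_mul]
    linear_combination (-1 : ℝ) * this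
  have h0 : ∀ i, (0 : Fin d → ℝ) ∈ K i := fun i => hball i (Metric.mem_ball_self hδ)
  have hCn : ∀ i, (C i).Nonempty := by
    intro i
    refine ⟨(k : ℝ) • fun _ => (B : ℝ), ?_⟩
    show (k : ℝ)⁻¹ • ((k : ℝ) • fun _ => (B : ℝ)) - (fun _ => (B : ℝ)) ∈ K i
    rw [smul_smul, inv_mul_cancel₀ hk'.ne', one_smul, sub_self]
    exact h0 i
  have hAC : ∀ i, ∀ l ∈ A i, toR l ∈ C i := fun i l hl => hAK i l hl
  refine key (ordKey_injective ℓ) (p := 2) hd A C hCc hCn hAC r R hr e q a J hq ?_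
  intro m y hy hym hcl hord
  set Y : ι → Fin d → ℝ := fun i => (k : ℝ)⁻¹ • y i - (fun _ => (B : ℝ)) with hY
  have hyK : ∀ i, Y i ∈ K i := fun i => hy i
  set Λ : ι → Fin d →₀ ℕ := fun i => ∑ l ∈ A i, r i l • l with hΛ
  set S : Fin d →₀ ℕ := ∑ i, a i • Λ i with hS
  have hq0 : 0 < q := by rw [hq]; positivity
  have hq' : (0 : ℝ) < q := by exact_mod_cast hq0
  -- coordinates of `Λ`
  have hΛc : ∀ j i, (Λ j i : ℝ) = k * N j * (c j i + B) := by
    intro j i
    have h1 : c j i = (N j : ℝ)⁻¹ * ∑ m ∈ A j, ((r j m : ℝ) * ((k : ℝ)⁻¹ * (m i : ℝ) - B)) := by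
      rw [hcdef]
      show ((N j : ℝ)⁻¹ • ∑ m ∈ A j, (r j m : ℝ) • pt k B m) i = _
      rw [Pi.smul_apply, smul_eq_mul, Finset.sum_apply]
      rfl
    have h2 : (Λ j i : ℝ) = ∑ m ∈ A j, (r j m : ℝ) * (m i : ℝ) := by
      rw [hΛ]
      show (((∑ l ∈ A j, r j l • l) i : ℕ) : ℝ) = _
      rw [Finsupp.finsetSum_apply, Nat.cast_sum]
      refine Finset.sum_congr rfl fun m _ => ?_
      rw [Finsupp.smul_apply, smul_eq_mul, Nat.cast_mul]
    have h3 : ∑ m ∈ A j, ((r j m : ℝ) * ((k : ℝ)⁻¹ * (m i : ℝ) - B)) =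
        (k : ℝ)⁻¹ * (Λ j i : ℝ) - N j * B := by
      rw [h2, Finset.mul_sum]
      have h4 : (N j : ℝ) = ∑ m ∈ A j, (r j m : ℝ) := by
        rw [hN]; push_cast; rfl
      rw [h4, Finset.sum_mul, ← Finset.sum_sub_distrib]
      refine Finset.sum_congr rfl fun m _ => ?_
      ring
    rw [h1, h3]
    have := hN' j
    field_simp
    ring
  -- the integer vector
  have hdiv : ∀ i, ∃ z : ℤ, ((m i : ℤ) - (S i : ℕ) : ℤ) = q * z := by
    intro i
    have h1 : (m i : ZMod q) = ((S i : ℕ) : ZMod q) := congrFun hcl i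
    have h2 : (((m i : ℤ) - ((S i : ℕ) : ℤ) : ℤ) : ZMod q) = 0 := by
      rw [Int.cast_sub, Int.cast_natCast, Int.cast_natCast, h1, sub_self]
    rw [ZMod.intCast_zmod_eq_zero_iff_dvd] at h2
    exact h2
  choose z hz using hdiv
  set θ : ι → ℝ := fun i => (a i : ℝ) * N i * k / q with hθ
  have hSr : ∀ i, (S i : ℝ) = ∑ j, (a j : ℝ) * (k * N j * (c j i + B)) := by
    intro i
    rw [hS, Finsupp.finsetSum_apply, Nat.cast_sum]
    refine Finset.sum_congr rfl fun j _ => ?_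
    rw [Finsupp.smul_apply, smul_eq_mul, Nat.cast_mul, hΛc j i]
  have hzr : (fun i => (z i : ℝ)) = ∑ j, θ j • (Y j - c j) := by
    funext i
    have h1 : ((m i : ℝ) - S i) = q * z i := by
      have := hz i
      have h2 : (((m i : ℤ) - ((S i : ℕ) : ℤ) : ℤ) : ℝ) = ((q * z i : ℤ) : ℝ) := by rw [this]
      push_cast at h2
      exact h2
    have h3 : (m i : ℝ) = ∑ j, (a j : ℝ) * N j * y j i := by
      have := congrFun hym i
      rw [Finset.sum_apply] at this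
      have h4 : toR m i = (m i : ℝ) := rfl
      rw [← h4, this]
      refine Finset.sum_congr rfl fun j _ => ?_
      rw [Pi.smul_apply, smul_eq_mul, Nat.cast_mul]
    have h5 : ∀ j, y j i = k * (Y j i + B) := by
      intro j
      have h4 : Y j i = (k : ℝ)⁻¹ * y j i - B := rfl
      rw [h4]; field_simp; ring
    rw [Finset.sum_apply]
    have h6 : (z i : ℝ) = ((m i : ℝ) - S i) / q := by
      rw [h1]; field_simp
    rw [h6, h3, hSr i, ← Finset.sum_sub_distrib, Finset.sum_div]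
    refine Finset.sum_congr rfl fun j _ => ?_
    rw [h5 j]
    simp only [Pi.smul_apply, Pi.sub_apply, smul_eq_mul, hθ]
    ring
  have hθ0 : ∀ i, 0 ≤ θ i := fun i => by
    show 0 ≤ (a i : ℝ) * N i * k / q
    positivity
  have hθ1 : ∀ i, θ i ≤ 1 - ε := by
    intro i
    show (a i : ℝ) * N i * k / q ≤ 1 - ε
    rw [div_le_iff₀ hq']
    have := ha i
    linarith
  have hint : (fun i => (z i : ℝ)) ∈ interior (msum K) := by
    rw [hzr]
    apply msum_interior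
    intro i
    have h1 : 0 < 1 - θ i := by linarith [hθ1 i]
    have h2 : θ i • (Y i - c i) = θ i • Y i + (1 - θ i) • (-(θ i / (1 - θ i)) • c i) := by
      rw [smul_smul, mul_neg, mul_div_cancel₀ _ h1.ne', smul_sub, neg_smul]
      abel
    rw [h2]
    have h3 : (-(θ i / (1 - θ i)) • c i) ∈ interior (K i) := by
      have hb : Metric.ball (0 : Fin d → ℝ) δ ⊆ interior (K i) :=
        interior_maximal (hball i) Metric.isOpen_ball
      apply hb
      have hnn : 0 ≤ θ i / (1 - θ i) := div_nonneg (hθ0 i) h1.le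
      rw [mem_ball_zero_iff, norm_smul, norm_neg, Real.norm_eq_abs, abs_of_nonneg hnn]
      have h4 : θ i / (1 - θ i) ≤ 1 / ε := by
        apply div_le_div₀ zero_le_one (by linarith [hθ1 i]) hε (by linarith [hθ1 i])
      calc θ i / (1 - θ i) * ‖c i‖ ≤ 1 / ε * ‖c i‖ := mul_le_mul_of_nonneg_right h4 (norm_nonneg _)
        _ < 1 / ε * (ε * δ) := by
            apply mul_lt_mul_of_pos_left (hc i) (by positivity)
        _ = δ := by field_simp
    exact (hKc i).combo_self_interior_mem_interior (hyK i) h3 (hθ0 i) h1 (by ring)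
  have hle : ℓ (toR m) ≤ ℓ (toR S) := le_of_ordKey_le hord
  have hmS : toR m = toR S + (q : ℝ) • fun i => (z i : ℝ) := by
    funext i
    have h1 := hz i
    have h2 : (((m i : ℤ) - ((S i : ℕ) : ℤ) : ℤ) : ℝ) = ((q * z i : ℤ) : ℝ) := by rw [h1]
    push_cast at h2
    show (m i : ℝ) = (S i : ℝ) + q * (z i : ℝ)
    linarith
  have hz0 : z = 0 := by
    by_contra hne
    have h1 := hL z hint hne
    rw [hmS, map_add, map_smul, smul_eq_mul] at hle
    have h2 : 0 < (q : ℝ) * ℓ fun i => (z i : ℝ) := mul_pos hq' h1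
    linarith
  ext i
  have h1 := hz i
  rw [hz0] at h1
  simp only [Pi.zero_apply, mul_zero] at h1
  have h2 : (m i : ℤ) = ((S i : ℕ) : ℤ) := by linarith
  exact_mod_cast h2

end Pool.Agent.H63.EH
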