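import Pool.Agent.H63.EH.Lim

/-!
# One-sided Ehrhart theorem for several bodies: measurable weights

After the library's `Pool.Agent.H906.EhrM.Meas`.
-/

set_option autoImplicit false

open scoped Pointwise Topology
open Set MeasureTheory Filter Module

namespace Pool.Agent.H63.EH

open Pool.Agent.H912R3.Ehr Pool.Agent.H906.EhrW Pool.Agent.H906.EhrM

variable {d : ℕ}

variable {ι : Type} [Fintype ι]

/-- the bound for measurable weights, before optimising `y` -/
theorem weight_bound_y [Nonempty ι] (hd : 1 ≤ d) {K : ι → Set (Fin d → ℝ)}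
    (hK : ∀ i, IsCompact (K i)) (hKc : ∀ i, Convex ℝ (K i))
    {ℓ : (Fin d → ℝ) →ₗ[ℝ] ℝ}
    (hL : ∀ z : Fin d → ℤ, (fun i => (z i : ℝ)) ∈ interior (msum K) → z ≠ 0 →
      0 < ℓ fun i => (z i : ℝ))
    {f : ι → (Fin d → ℝ) → ℝ} (hf : ∀ i, IntegrableOn (f i) (K i))
    (hf01 : ∀ i, ∀ x ∈ K i, 0 ≤ f i x ∧ f i x ≤ 1)
    (hz : ∀ i j, ∫ x in K i, f i x * x j = 0) (V : ι → ℝ) (hV : ∀ i, V i = ∫ x in K i, f i x)
    (hV0 : ∀ i, 0 < V i) (y : ι → ℝ) (hy : ∀ i, 0 ≤ y i) :
    ∑ i, (y i - y i ^ (d + 1) / ((d + 1).factorial * V i)) ≤ d := by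
  classical
  have h0 : ∀ i, (0 : Fin d → ℝ) ∈ interior (K i) := fun i =>
    zero_mem_interior (hK i) (hKc i) (hf i) (fun x hx => (hf01 i x hx).1) (hz i)
      (by rw [← hV i]; exact hV0 i)
  have h0' : (0 : Fin d → ℝ) ∈ interior (⋂ i, K i) := by
    rw [interior_iInter_of_finite]
    exact Set.mem_iInter.2 h0
  obtain ⟨δ, hδ, hball'⟩ := Metric.mem_nhds_iff.1 (mem_interior_iff_mem_nhds.1 h0')
  have hball : ∀ i, Metric.ball (0 : Fin d → ℝ) δ ⊆ K i := fun i =>
    hball'.trans (Set.iInter_subset _ i)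
  have hRi : ∀ i, ∃ R : ℝ, 0 ≤ R ∧ ∀ x ∈ K i, ∀ j, |x j| ≤ R := by
    intro i
    obtain ⟨R, hR⟩ := (hK i).isBounded.subset_closedBall (0 : Fin d → ℝ)
    refine ⟨R, ?_, fun x hx j => ?_⟩
    · have h1 := hR (interior_subset (h0 i))
      rw [mem_closedBall_zero_iff, norm_zero] at h1
      exact h1
    · have h1 := hR hx
      rw [mem_closedBall_zero_iff] at h1
      exact (norm_le_pi_norm x j).trans h1
  choose R hR0 hB using hRi
  -- the inequality for each `ε`
  have hε : ∀ ε : ℝ, 0 < ε → ε < 1 →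
      (1 - ε) * ∑ i, (y i - y i ^ (d + 1) / ((d + 1).factorial * V i)) ≤ d := by
    intro ε hε hε1
    have key : ∀ᶠ η : ℝ in 𝓝[>] 0,
        (1 - ε) * ∑ i, (y i - y i ^ (d + 1) / ((d + 1).factorial * (V i - η))) ≤ d := by
      have h1 : ∀ᶠ η : ℝ in 𝓝[>] 0, ∀ i, (V i - η)⁻¹ * (R i * η) < ε * δ := by
        refine eventually_all.2 fun i => ?_
        have hlim1 : Tendsto (fun η : ℝ => (V i - η)⁻¹ * (R i * η)) (𝓝[>] 0)
            (𝓝 ((V i - 0)⁻¹ * (R i * 0))) := by
          refine Tendsto.mono_left ?_ nhdsWithin_le_nhds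
          refine Tendsto.mul ?_ (tendsto_id.const_mul (R i))
          refine (tendsto_const_nhds.sub tendsto_id).inv₀ ?_
          rw [sub_zero]; exact (hV0 i).ne'
        rw [mul_zero, mul_zero] at hlim1
        exact hlim1.eventually (gt_mem_nhds (by positivity))
      have h2 : ∀ᶠ η : ℝ in 𝓝[>] 0, ∀ i, η ∈ Ioo 0 (V i) :=
        eventually_all.2 fun i => Ioo_mem_nhdsGT (hV0 i)
      have h3 : ∀ᶠ η : ℝ in 𝓝[>] 0, (0 : ℝ) < η := eventually_mem_nhdsWithin
      filter_upwards [h1, h2, h3] with η hη1 hη2 hη3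
      choose g hgc hg0 hg1 hgη using fun i => approx (hK i) (hf i) (hf01 i) hη3
      have hgi : ∀ i, IntegrableOn (g i) (K i) := fun i =>
        (hgc i).continuousOn.integrableOn_compact (hK i)
      have hfg : ∀ i, IntegrableOn (fun x => f i x - g i x) (K i) := fun i => (hf i).sub (hgi i)
      set W : ι → ℝ := fun i => ∫ x in K i, g i x with hW
      have hVW : ∀ i, |V i - W i| ≤ η := by
        intro i
        have e1 : V i - W i = ∫ x in K i, (f i x - g i x) := by
          rw [integral_sub (hf i) (hgi i), ← hV i]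
        rw [e1]
        exact (abs_integral_le_integral_abs).trans (hgη i)
      have hW0 : ∀ i, 0 < W i := fun i => by
        have := abs_le.1 (hVW i)
        linarith [(hη2 i).2]
      have hmom : ∀ i j, |∫ x in K i, g i x * x j| ≤ R i * η := by
        intro i j
        have hi1 : IntegrableOn (fun x : Fin d → ℝ => f i x * x j) (K i) :=
          mul_coord_integrable (hK i) (hf i) j
        have hi2 : IntegrableOn (fun x : Fin d → ℝ => g i x * x j) (K i) :=
          mul_coord_integrable (hK i) (hgi i) j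
        have e1 : ∫ x in K i, g i x * x j = -∫ x in K i, (f i x - g i x) * x j := by
          have e2 : ∫ x in K i, (f i x - g i x) * x j =
              (∫ x in K i, f i x * x j) - ∫ x in K i, g i x * x j := by
            rw [← integral_sub hi1 hi2]
            refine integral_congr_ae (Eventually.of_forall fun x => ?_)
            show (f i x - g i x) * x j = f i x * x j - g i x * x j
            ring
          rw [e2, hz i j]
          ring
        rw [e1, abs_neg]
        calc |∫ x in K i, (f i x - g i x) * x j| ≤ ∫ x in K i, |(f i x - g i x) * x j| :=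
              abs_integral_le_integral_abs
          _ ≤ ∫ x in K i, R i * |f i x - g i x| := by
              refine setIntegral_mono_on ?_ ((hfg i).abs.const_mul (R i)) (hK i).measurableSet
                fun x hx => ?_
              · exact (mul_coord_integrable (hK i) (hfg i) j).abs
              · rw [abs_mul, mul_comm]
                exact mul_le_mul_of_nonneg_right (hB i x hx j) (abs_nonneg _)
          _ = R i * ∫ x in K i, |f i x - g i x| := integral_const_mul _ _
          _ ≤ R i * η := mul_le_mul_of_nonneg_left (hgη i) (hR0 i)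
      have hc : ∀ i, ‖(fun j => (W i)⁻¹ * ∫ x in K i, g i x * x j : Fin d → ℝ)‖ < ε * δ := by
        intro i
        refine lt_of_le_of_lt ?_ (hη1 i)
        have hVη : 0 < V i - η := by linarith [(hη2 i).2]
        have hRi := hR0 i
        refine (pi_norm_le_iff_of_nonneg (by positivity)).2 fun j => ?_
        rw [Real.norm_eq_abs, abs_mul, abs_of_pos (inv_pos.2 (hW0 i))]
        refine mul_le_mul ?_ (hmom i j) (abs_nonneg _) (inv_pos.2 hVη).le
        refine inv_anti₀ hVη ?_
        have := abs_le.1 (hVW i)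
        linarith
      have h4 := cont_bound hd hK hKc hL hε hε1 hδ hball g hgc hg0 hg1 W (fun i => rfl) hW0 hc
        y hy
      refine le_trans (mul_le_mul_of_nonneg_left (Finset.sum_le_sum fun i _ => ?_) (by linarith)) h4
      refine sub_le_sub_left ?_ _
      have hf1 : (0 : ℝ) < (d + 1).factorial := by positivity
      have hVη : 0 < V i - η := by linarith [(hη2 i).2]
      have := abs_le.1 (hVW i)
      refine div_le_div_of_nonneg_left (pow_nonneg (hy i) _) (mul_pos hf1 hVη) ?_
      exact mul_le_mul_of_nonneg_left (by linarith) hf1.le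
    have hl1 : Tendsto (fun η : ℝ => (1 - ε) *
        ∑ i, (y i - y i ^ (d + 1) / ((d + 1).factorial * (V i - η)))) (𝓝[>] 0)
        (𝓝 ((1 - ε) * ∑ i, (y i - y i ^ (d + 1) / ((d + 1).factorial * (V i - 0))))) := by
      refine Tendsto.mono_left ?_ nhdsWithin_le_nhds
      refine Tendsto.const_mul _ (tendsto_finsetSum _ fun i _ => ?_)
      refine tendsto_const_nhds.sub (Tendsto.div tendsto_const_nhds
        ((tendsto_const_nhds.sub tendsto_id).const_mul _) ?_)
      have hf1 : (0 : ℝ) < (d + 1).factorial := by positivity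
      have := hV0 i
      rw [sub_zero]
      positivity
    have := le_of_tendsto hl1 key
    simpa only [sub_zero] using this
  -- `ε → 0`
  have hlim : Tendsto (fun ε : ℝ => (1 - ε) *
      ∑ i, (y i - y i ^ (d + 1) / ((d + 1).factorial * V i))) (𝓝[>] 0)
      (𝓝 ((1 - 0) * ∑ i, (y i - y i ^ (d + 1) / ((d + 1).factorial * V i)))) := by
    refine Tendsto.mono_left ?_ nhdsWithin_le_nhds
    exact (tendsto_const_nhds.sub tendsto_id).mul_const _
  have hfin : (1 - 0) * ∑ i, (y i - y i ^ (d + 1) / ((d + 1).factorial * V i)) ≤ d := by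
    refine le_of_tendsto hlim ?_
    filter_upwards [Ioo_mem_nhdsGT (zero_lt_one : (0 : ℝ) < 1)] with ε h
    exact hε ε h.1 h.2
  rw [sub_zero, one_mul] at hfin
  exact hfin

/-- **The bound for several bodies.** -/
theorem weight_bound [Nonempty ι] (hd : 1 ≤ d) {K : ι → Set (Fin d → ℝ)}
    (hK : ∀ i, IsCompact (K i)) (hKc : ∀ i, Convex ℝ (K i))
    {ℓ : (Fin d → ℝ) →ₗ[ℝ] ℝ}
    (hL : ∀ z : Fin d → ℤ, (fun i => (z i : ℝ)) ∈ interior (msum K) → z ≠ 0 →
      0 < ℓ fun i => (z i : ℝ))
    {f : ι → (Fin d → ℝ) → ℝ} (hf : ∀ i, IntegrableOn (f i) (K i))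
    (hf01 : ∀ i, ∀ x ∈ K i, 0 ≤ f i x ∧ f i x ≤ 1)
    (hz : ∀ i j, ∫ x in K i, f i x * x j = 0)
    (hV0 : ∀ i, 0 < ∫ x in K i, f i x) :
    ∑ i, ((d.factorial : ℝ) * ∫ x in K i, f i x) ^ ((d : ℝ)⁻¹) ≤ d + 1 := by
  set V : ι → ℝ := fun i => ∫ x in K i, f i x with hV
  set y : ι → ℝ := fun i => ((d.factorial : ℝ) * V i) ^ ((d : ℝ)⁻¹) with hy
  have hdf : (0 : ℝ) < d.factorial := by positivity
  have hd0 : (0 : ℝ) < d := by exact_mod_cast hd
  have hy0 : ∀ i, 0 ≤ y i := fun i =>
    Real.rpow_nonneg (mul_nonneg hdf.le (hV0 i).le) _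
  have hyd : ∀ i, y i ^ d = (d.factorial : ℝ) * V i := by
    intro i
    exact Real.rpow_inv_natCast_pow (mul_nonneg hdf.le (hV0 i).le) (by omega)
  have h1 := weight_bound_y hd hK hKc hL hf hf01 hz V (fun _ => rfl) hV0 y hy0
  have h2 : ∀ i, y i - y i ^ (d + 1) / ((d + 1).factorial * V i) = y i * (d / ((d : ℝ) + 1)) := by
    intro i
    have hVi : 0 < V i := hV0 i
    rw [pow_succ, hyd i, Nat.factorial_succ]
    push_cast
    field_simp
    ring
  rw [Finset.sum_congr rfl fun i _ => h2 i, ← Finset.sum_mul] at h1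
  have h3 : (0 : ℝ) < d / ((d : ℝ) + 1) := by positivity
  rw [← le_div_iff₀ h3] at h1
  refine h1.trans (le_of_eq ?_)
  field_simp

end Pool.Agent.H63.EH
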